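import Pool.Agent.Q320.AP.Dim

/-!
# Assouad dimension of projections of self-similar sets with dense rotations

Every orthogonal projection onto a `k`-dimensional subspace of a self-similar set with at least
two points and dense rotations has Assouad dimension `k`.
-/

set_option autoImplicit false

namespace Pool.Agent.Results.MP_b41e65_an.AssouadProjections

open Pool.Agent.Q320.AP

/-- `S_i(x) = c_i O_i x + t_i`, with `0 < c_i < 1`, `O_i` a linear isometry of `ℝ^d` and `F` the
attractor.  `DenseRot O`: every linear isometry of determinant `1` is a limit (in operator norm) of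
elements of the group generated by the `O_i`. -/
theorem result {d : ℕ} {ι : Type*} [Finite ι] (c : ι → ℝ)
    (O : ι → (EuclideanSpace ℝ (Fin d) ≃ₗᵢ[ℝ] EuclideanSpace ℝ (Fin d)))
    (t : ι → EuclideanSpace ℝ (Fin d))
    (hc0 : ∀ i, 0 < c i) (hc1 : ∀ i, c i < 1) (hO : DenseRot O)
    (F : Set (EuclideanSpace ℝ (Fin d))) (hcompact : IsCompact F) (hnt : F.Nontrivial)
    (hF : F = ⋃ i, (fun x => c i • O i x + t i) '' F)
    (W : Submodule ℝ (EuclideanSpace ℝ (Fin d))) (k : ℕ) (hW : Module.finrank ℝ W = k)
    (hkd : k < d) :
    dimA (W.starProjection '' F) = k := by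
  have hne : W ≠ ⊤ := by
    rintro rfl
    rw [finrank_top, finrank_euclideanSpace_fin] at hW
    omega
  have h := main hc0 hc1 hO hcompact hnt hF hne
  rw [hW] at h
  exact h

end Pool.Agent.Results.MP_b41e65_an.AssouadProjections
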